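import Mathlib

/-!
Project QK (helper667), job BOX: the box theorem of Erdős for sets of positive density.
-/

set_option autoImplicit false

namespace Pool.Agent.Y496.QK

open Finset

open Classical in
/-- The box theorem of Erdős: a dense subset of a cube contains a box. -/
theorem box (m : ℕ) : ∀ c : ℝ, 0 < c → ∃ n₀ : ℕ, ∀ n : ℕ, n₀ ≤ n → ∀ H : Finset (Fin m → Fin n),
    c * (n : ℝ) ^ m ≤ (H.card : ℝ) → ∃ i i' : Fin m → Fin n, (∀ j, i j ≠ i' j) ∧
      ∀ S : Finset (Fin m), (fun j => if j ∈ S then i' j else i j) ∈ H := by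
  induction m with
  | zero =>
    intro c hc
    refine ⟨0, fun n _ H hH => ⟨Fin.elim0, Fin.elim0, fun j => j.elim0, fun S => ?_⟩⟩
    have h1 : 0 < H.card := by
      have : (0 : ℝ) < H.card := by
        rw [pow_zero, mul_one] at hH
        linarith
      exact_mod_cast this
    obtain ⟨t, ht⟩ := Finset.card_pos.mp h1
    have : (fun j => if j ∈ S then (Fin.elim0 j : Fin n) else Fin.elim0 j) = t :=
      funext fun j => j.elim0
    rw [this]
    exact ht
  | succ m ih =>
    intro c hc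
    obtain ⟨n₁, hn₁⟩ := ih (c ^ 2 / 2) (by positivity)
    refine ⟨max (max n₁ 1) (⌈2 / c ^ 2⌉₊ + 1), fun n hn H hH => ?_⟩
    have hn1 : n₁ ≤ n := le_trans (le_trans (le_max_left _ _) (le_max_left _ _)) hn
    have hn2 : 1 ≤ n := le_trans (le_trans (le_max_right _ _) (le_max_left _ _)) hn
    have hn3 : 2 / c ^ 2 < n := by
      have h1 : ⌈2 / c ^ 2⌉₊ + 1 ≤ n := le_trans (le_max_right _ _) hn
      have h2 : 2 / c ^ 2 ≤ (⌈2 / c ^ 2⌉₊ : ℝ) := Nat.le_ceil _
      have h3 : ((⌈2 / c ^ 2⌉₊ + 1 : ℕ) : ℝ) ≤ n := by exact_mod_cast h1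
      push_cast at h3
      linarith
    have hnR : (0 : ℝ) < n := by exact_mod_cast hn2
    -- the number of the first coordinates
    set d : (Fin m → Fin n) → ℕ := fun u => (univ.filter fun v : Fin n => Fin.cons v u ∈ H).card
      with hd
    have hsum : ∑ u, (d u : ℝ) = H.card := by
      have h1 : H.card = ∑ t : Fin (m + 1) → Fin n, if t ∈ H then 1 else 0 := by
        rw [Finset.sum_boole, Finset.filter_mem_eq_inter, Finset.univ_inter]
        simp
      have h2 : ∑ t : Fin (m + 1) → Fin n, (if t ∈ H then 1 else 0) =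
          ∑ p : Fin n × (Fin m → Fin n), if (Fin.cons p.1 p.2 : Fin (m + 1) → Fin n) ∈ H
            then 1 else 0 := by
        refine (Fintype.sum_equiv (Fin.consEquiv fun _ : Fin (m + 1) => Fin n) _ _ ?_).symm
        intro p
        rfl
      rw [h1, h2, Fintype.sum_prod_type_right]
      push_cast
      refine Finset.sum_congr rfl fun u _ => ?_
      rw [hd]
      simp only [Finset.card_filter]
      push_cast
      rfl
    have hcs : c ^ 2 * (n : ℝ) ^ (m + 2) ≤ ∑ u, (d u : ℝ) ^ 2 := by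
      have h1 : (∑ u, (d u : ℝ)) ^ 2 ≤ (univ : Finset (Fin m → Fin n)).card * ∑ u, (d u : ℝ) ^ 2 :=
        sq_sum_le_card_mul_sum_sq
      rw [hsum, Finset.card_univ, Fintype.card_fun, Fintype.card_fin, Fintype.card_fin] at h1
      have h2 : (c * (n : ℝ) ^ (m + 1)) ^ 2 ≤ (H.card : ℝ) ^ 2 := by
        apply pow_le_pow_left₀ (by positivity) hH
      have h3 : (n : ℝ) ^ m * (c ^ 2 * (n : ℝ) ^ (m + 2)) ≤ (n : ℝ) ^ m * ∑ u, (d u : ℝ) ^ 2 := by
        refine le_trans (le_of_eq ?_) (h2.trans (h1.trans (le_of_eq ?_)))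
        · ring
        · push_cast
          ring
      exact le_of_mul_le_mul_left h3 (by positivity)
    set P : Fin n → Fin n → Finset (Fin m → Fin n) := fun v v' =>
      univ.filter fun u => (Fin.cons v u : Fin (m + 1) → Fin n) ∈ H ∧
        (Fin.cons v' u : Fin (m + 1) → Fin n) ∈ H with hP
    have hpair : ∑ v, ∑ v', ((P v v').card : ℝ) = ∑ u, (d u : ℝ) ^ 2 := by
      have h1 : ∀ v v', ((P v v').card : ℝ) = ∑ u : Fin m → Fin n,
          (if (Fin.cons v u : Fin (m + 1) → Fin n) ∈ H then (1 : ℝ) else 0) *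
          (if (Fin.cons v' u : Fin (m + 1) → Fin n) ∈ H then (1 : ℝ) else 0) := by
        intro v v'
        rw [hP]
        simp only [Finset.card_filter]
        push_cast
        refine Finset.sum_congr rfl fun u _ => ?_
        by_cases h1 : (Fin.cons v u : Fin (m + 1) → Fin n) ∈ H <;>
          by_cases h2 : (Fin.cons v' u : Fin (m + 1) → Fin n) ∈ H <;> simp [h1, h2]
      simp only [h1]
      have h2 : ∀ v, ∑ v', ∑ u : Fin m → Fin n,
          (if (Fin.cons v u : Fin (m + 1) → Fin n) ∈ H then (1 : ℝ) else 0) *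
          (if (Fin.cons v' u : Fin (m + 1) → Fin n) ∈ H then (1 : ℝ) else 0) =
          ∑ u : Fin m → Fin n, (if (Fin.cons v u : Fin (m + 1) → Fin n) ∈ H then (1 : ℝ) else 0) *
            (d u : ℝ) := by
        intro v
        rw [Finset.sum_comm]
        refine Finset.sum_congr rfl fun u _ => ?_
        rw [← Finset.mul_sum]
        congr 1
        rw [hd]
        simp only [Finset.card_filter]
        push_cast
        rfl
      simp only [h2]
      rw [Finset.sum_comm]
      refine Finset.sum_congr rfl fun u _ => ?_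
      rw [← Finset.sum_mul, sq]
      congr 1
      rw [hd]
      simp only [Finset.card_filter]
      push_cast
      rfl
    -- a good pair
    have hgood : ∃ v v' : Fin n, v ≠ v' ∧ c ^ 2 / 2 * (n : ℝ) ^ m ≤ ((P v v').card : ℝ) := by
      by_contra hcon
      push Not at hcon
      have h1 : ∀ v : Fin n, ∑ v', ((P v v').card : ℝ) ≤
          ((P v v).card : ℝ) + n * (c ^ 2 / 2 * (n : ℝ) ^ m) := by
        intro v
        rw [← Finset.add_sum_erase _ _ (Finset.mem_univ v)]
        apply add_le_add_right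
        have h2 : ∑ v' ∈ univ.erase v, ((P v v').card : ℝ) ≤
            ∑ v' ∈ univ.erase v, (c ^ 2 / 2 * (n : ℝ) ^ m) := by
          refine Finset.sum_le_sum fun v' hv' => (hcon v v' ?_).le
          exact (Finset.ne_of_mem_erase hv').symm
        refine h2.trans ?_
        rw [Finset.sum_const, nsmul_eq_mul]
        apply mul_le_mul_of_nonneg_right _ (by positivity)
        have h3 : (univ.erase v).card ≤ n := by
          refine (Finset.card_le_univ _).trans ?_
          rw [Fintype.card_fin]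
        exact_mod_cast h3
      have h4 : ∑ v, ∑ v', ((P v v').card : ℝ) ≤
          ∑ v : Fin n, (((P v v).card : ℝ) + n * (c ^ 2 / 2 * (n : ℝ) ^ m)) :=
        Finset.sum_le_sum fun v _ => h1 v
      rw [Finset.sum_add_distrib, Finset.sum_const, Finset.card_univ, Fintype.card_fin,
        nsmul_eq_mul, hpair] at h4
      have h5 : ∀ v : Fin n, ((P v v).card : ℝ) ≤ (n : ℝ) ^ m := by
        intro v
        have : (P v v).card ≤ n ^ m := by
          refine (Finset.card_le_univ _).trans ?_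
          rw [Fintype.card_fun, Fintype.card_fin, Fintype.card_fin]
        exact_mod_cast this
      have h6 : ∑ v : Fin n, ((P v v).card : ℝ) ≤ n * (n : ℝ) ^ m := by
        refine (Finset.sum_le_sum fun v _ => h5 v).trans ?_
        rw [Finset.sum_const, Finset.card_univ, Fintype.card_fin, nsmul_eq_mul]
      have h7 : c ^ 2 * (n : ℝ) ^ (m + 2) ≤
          n * (n : ℝ) ^ m + n * (n * (c ^ 2 / 2 * (n : ℝ) ^ m)) := by linarith
      have h8 : (n : ℝ) ^ (m + 1) * (c ^ 2 * n) ≤ (n : ℝ) ^ (m + 1) * (1 + c ^ 2 / 2 * n) := by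
        calc (n : ℝ) ^ (m + 1) * (c ^ 2 * n) = c ^ 2 * (n : ℝ) ^ (m + 2) := by ring
          _ ≤ _ := h7
          _ = _ := by ring
      have h9 : c ^ 2 * n ≤ 1 + c ^ 2 / 2 * n := le_of_mul_le_mul_left h8 (by positivity)
      rw [div_lt_iff₀ (by positivity)] at hn3
      nlinarith
    obtain ⟨v, v', hvv, hcard⟩ := hgood
    obtain ⟨i, i', hii, hS⟩ := hn₁ n hn1 (P v v') hcard
    refine ⟨Fin.cons v i, Fin.cons v' i', ?_, ?_⟩
    · intro j
      refine Fin.cases ?_ (fun j => ?_) j
      · simpa using hvv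
      · simpa using hii j
    · intro S
      have h1 := hS (univ.filter fun j : Fin m => j.succ ∈ S)
      rw [hP] at h1
      simp only [Finset.mem_filter, Finset.mem_univ, true_and] at h1
      by_cases h0 : (0 : Fin (m + 1)) ∈ S
      · convert h1.2 using 1
        funext j
        refine Fin.cases ?_ (fun j => ?_) j
        · simp [h0]
        · simp
      · convert h1.1 using 1
        funext j
        refine Fin.cases ?_ (fun j => ?_) j
        · simp [h0]
        · simp

open Classical in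
/-- The box theorem for families of sets. -/
theorem boxD (m : ℕ) (c : ℝ) (hc : 0 < c) : ∃ (n : ℕ) (c' : ℝ), 2 ≤ n ∧ 0 < c' ∧
    ∀ (α : Type) (Ω : Finset α) (G : (Fin m → Fin n) → Finset α),
    (∀ t, G t ⊆ Ω) → c * (n : ℝ) ^ m * (Ω.card : ℝ) ≤ ∑ t, ((G t).card : ℝ) →
    ∃ i i' : Fin m → Fin n, (∀ j, i j ≠ i' j) ∧
      c' * (Ω.card : ℝ) ≤ ((Ω.filter (fun x => ∀ S : Finset (Fin m),
        x ∈ G (fun j => if j ∈ S then i' j else i j))).card : ℝ) := by
  obtain ⟨n₀, hn₀⟩ := box m (c / 2) (by positivity)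
  set n := max n₀ 2 with hn
  have hn2 : 2 ≤ n := le_max_right _ _
  have hn0 : n₀ ≤ n := le_max_left _ _
  have hnR : (0 : ℝ) < n := by
    have : 0 < n := by omega
    exact_mod_cast this
  refine ⟨n, c / 2 / ((n : ℝ) ^ m * (n : ℝ) ^ m), hn2, by positivity, ?_⟩
  intro α Ω G hG hsum
  set c' : ℝ := c / 2 / ((n : ℝ) ^ m * (n : ℝ) ^ m) with hc'
  set W : Finset ((Fin m → Fin n) × (Fin m → Fin n)) := univ.filter fun p => ∀ j, p.1 j ≠ p.2 j
    with hW
  have hWne : W.Nonempty := by
    refine ⟨(fun _ => ⟨0, by omega⟩, fun _ => ⟨1, by omega⟩), ?_⟩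
    rw [hW, Finset.mem_filter]
    refine ⟨Finset.mem_univ _, fun j h => ?_⟩
    have := congrArg Fin.val h
    simp at this
  have hWc : (W.card : ℝ) ≤ (n : ℝ) ^ m * (n : ℝ) ^ m := by
    have : W.card ≤ n ^ m * n ^ m := by
      refine (Finset.card_le_univ _).trans ?_
      rw [Fintype.card_prod, Fintype.card_fun, Fintype.card_fin, Fintype.card_fin]
    exact_mod_cast this
  set F : (Fin m → Fin n) × (Fin m → Fin n) → Finset α := fun p =>
    Ω.filter (fun x => ∀ S : Finset (Fin m), x ∈ G (fun j => if j ∈ S then p.2 j else p.1 j))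
    with hF
  by_contra hcon
  push Not at hcon
  have hlt : ∀ p ∈ W, ((F p).card : ℝ) < c' * Ω.card := by
    intro p hp
    exact hcon p.1 p.2 (Finset.mem_filter.mp hp).2
  -- the points with many sets
  set Ω₁ : Finset α := Ω.filter fun x =>
    c / 2 * (n : ℝ) ^ m ≤ ((univ.filter fun t => x ∈ G t).card : ℝ) with hΩ₁
  have hsub : Ω₁ ⊆ W.biUnion F := by
    intro x hx
    obtain ⟨hx1, hx2⟩ := Finset.mem_filter.mp hx
    obtain ⟨i, i', hii, hS⟩ := hn₀ n hn0 (univ.filter fun t => x ∈ G t) hx2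
    rw [Finset.mem_biUnion]
    refine ⟨(i, i'), Finset.mem_filter.mpr ⟨Finset.mem_univ _, hii⟩, ?_⟩
    rw [hF, Finset.mem_filter]
    exact ⟨hx1, fun S => (Finset.mem_filter.mp (hS S)).2⟩
  have h1 : (Ω₁.card : ℝ) ≤ ∑ p ∈ W, ((F p).card : ℝ) := by
    have : Ω₁.card ≤ ∑ p ∈ W, (F p).card :=
      (Finset.card_le_card hsub).trans Finset.card_biUnion_le
    exact_mod_cast this
  have h2 : ∑ p ∈ W, ((F p).card : ℝ) < ∑ p ∈ W, c' * Ω.card :=
    Finset.sum_lt_sum_of_nonempty hWne hlt
  rw [Finset.sum_const, nsmul_eq_mul] at h2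
  have hc'0 : 0 < c' := by positivity
  have h3 : (W.card : ℝ) * (c' * Ω.card) ≤ (n : ℝ) ^ m * (n : ℝ) ^ m * (c' * Ω.card) :=
    mul_le_mul_of_nonneg_right hWc (by positivity)
  have h4 : (n : ℝ) ^ m * (n : ℝ) ^ m * (c' * Ω.card) = c / 2 * Ω.card := by
    rw [hc']
    field_simp
  have h5 : (Ω₁.card : ℝ) < c / 2 * Ω.card := by linarith
  -- double counting
  have h6 : ∑ t, ((G t).card : ℝ) = ∑ x ∈ Ω, ((univ.filter fun t => x ∈ G t).card : ℝ) := by
    have h7 : ∀ t, ((G t).card : ℝ) = ∑ x ∈ Ω, if x ∈ G t then (1 : ℝ) else 0 := by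
      intro t
      rw [Finset.sum_boole, Finset.filter_mem_eq_inter, Finset.inter_eq_right.mpr (hG t)]
    simp only [h7]
    rw [Finset.sum_comm]
    refine Finset.sum_congr rfl fun x _ => ?_
    rw [Finset.sum_boole]
  have h8 : ∑ x ∈ Ω, ((univ.filter fun t => x ∈ G t).card : ℝ) ≤
      ∑ x ∈ Ω, ((if x ∈ Ω₁ then (n : ℝ) ^ m else 0) + c / 2 * (n : ℝ) ^ m) := by
    refine Finset.sum_le_sum fun x hx => ?_
    by_cases hx1 : x ∈ Ω₁
    · rw [if_pos hx1]
      have : (univ.filter fun t => x ∈ G t).card ≤ n ^ m := by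
        refine (Finset.card_le_univ _).trans ?_
        rw [Fintype.card_fun, Fintype.card_fin, Fintype.card_fin]
      have h' : ((univ.filter fun t => x ∈ G t).card : ℝ) ≤ (n : ℝ) ^ m := by exact_mod_cast this
      have : (0 : ℝ) ≤ c / 2 * (n : ℝ) ^ m := by positivity
      linarith
    · rw [if_neg hx1, zero_add]
      by_contra hlt'
      exact hx1 (Finset.mem_filter.mpr ⟨hx, (not_le.mp hlt').le⟩)
  rw [Finset.sum_add_distrib, Finset.sum_const, nsmul_eq_mul] at h8
  have h9 : ∑ x ∈ Ω, (if x ∈ Ω₁ then (n : ℝ) ^ m else 0) = Ω₁.card * (n : ℝ) ^ m := by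
    rw [← Finset.sum_filter, Finset.filter_mem_eq_inter,
      Finset.inter_eq_right.mpr (Finset.filter_subset _ _), Finset.sum_const, nsmul_eq_mul]
  rw [h9] at h8
  have h10 : (n : ℝ) ^ m * (c * Ω.card) ≤ (n : ℝ) ^ m * (Ω₁.card + c / 2 * Ω.card) := by
    calc (n : ℝ) ^ m * (c * Ω.card) = c * (n : ℝ) ^ m * Ω.card := by ring
      _ ≤ _ := hsum
      _ = _ := h6
      _ ≤ _ := h8
      _ = _ := by ring
  have h11 := le_of_mul_le_mul_left h10 (by positivity)
  linarith

end Pool.Agent.Y496.QK
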