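import Pool.Agent.Y667.QK.Stm
import Pool.Agent.Y496.QK.Box0

/-!
Project QK (helper667), job BOX.
-/

set_option autoImplicit false

namespace Pool.Agent.Y496.QK

theorem BOX : Pool.Agent.Y667.QK.St_BOX := fun m c hc => boxD m c hc

end Pool.Agent.Y496.QK
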